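import Mathlib

set_option autoImplicit false

/-!
Detailed balance jump semigroups in weighted `L^1` need not be uniformly bounded, even if
`ω⁻¹ ∈ L^1(μ)`.
-/

open MeasureTheory Filter Topology Set
open scoped ENNReal NNReal

namespace Pool.Agent.Results.MP_ae1cd8_an.NotUniformlyBounded

section Defs

variable {Ω : Type} [MeasurableSpace Ω]

/-- `σ(x) = ∫ p(y, x) ν(dy)`. -/
noncomputable def sigma (ν : Measure Ω) (p : Ω → Ω → ℝ) (x : Ω) : ℝ≥0∞ :=
  ∫⁻ y, ENNReal.ofReal (p y x) ∂ν

/-- `σ̂_s(y) = ∫ p(y, x) ν(dx)`. -/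
noncomputable def sigmaHat (ν : Measure Ω) (p : Ω → Ω → ℝ) (y : Ω) : ℝ≥0∞ :=
  ∫⁻ x, ENNReal.ofReal (p y x) ∂ν

/-- `μ(dx) = ω(x) ν(dx)`. -/
noncomputable def mu (ν : Measure Ω) (ω : Ω → ℝ) : Measure Ω :=
  ν.withDensity fun x => ENNReal.ofReal (ω x)

/-- The assumptions of the question: `ν` is sigma-finite, `p ≥ 0` and `ω > 0` are measurable, the
detailed balance condition holds, `0 < σ < ∞` almost everywhere, condition (A) holds and
`ω⁻¹ ∈ L^1(μ)`. -/
structure Admissible (ν : Measure Ω) (p : Ω → Ω → ℝ) (ω : Ω → ℝ) : Prop where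
  sigmaFinite : SigmaFinite ν
  measurable_p : Measurable (Function.uncurry p)
  p_nonneg : ∀ x y, 0 ≤ p x y
  measurable_ω : Measurable ω
  ω_pos : ∀ x, 0 < ω x
  detailed_balance : ∀ x y, ω x * p x y = ω y * p y x
  sigma_pos : ∀ᵐ x ∂ν, 0 < sigma ν p x ∧ sigma ν p x < ∞
  condition_A : ∃ C : ℝ≥0, ∀ y, sigmaHat ν p y ≤ C * (1 + sigma ν p y)
  inv_integrable : Integrable (fun x => (ω x)⁻¹) (mu ν ω)

/-- The graph of `U₁ = M₁ + P` on the complex space `L^1(μ)`: `f` is in the domain of `M₁`, that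
is, `σ f ∈ L^1(μ)`, and `g = -σ f + P f` with `(P f)(x) = ∫ p(x, y) f(y) ν(dy)`. -/
def GraphU (ν : Measure Ω) (p : Ω → Ω → ℝ) (ω : Ω → ℝ) (f g : Lp ℂ 1 (mu ν ω)) : Prop :=
  Integrable (fun x => ((sigma ν p x).toReal : ℂ) * f x) (mu ν ω) ∧
    ∀ᵐ x ∂(mu ν ω), g x = -((sigma ν p x).toReal : ℂ) * f x + ∫ y, (p x y : ℂ) * f y ∂ν

end Defs

section Semigroups

variable {X : Type} [NormedAddCommGroup X] [NormedSpace ℂ X]

/-- `T` restricted to `[0, ∞)` is a `C_0`-semigroup. -/
structure IsC0Semigroup (T : ℝ → X →L[ℂ] X) : Prop where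
  zero : T 0 = ContinuousLinearMap.id ℂ X
  add : ∀ s t, 0 ≤ s → 0 ≤ t → T (s + t) = (T s).comp (T t)
  cont : ∀ f, Tendsto (fun t => T t f) (𝓝[>] 0) (𝓝 f)

/-- The relation `G` is the graph of the generator of `T`: `(f, g) ∈ G` if and only if
`(T(h) f - f) / h → g` as `h ↓ 0`. -/
def IsGeneratorGraph (G : X → X → Prop) (T : ℝ → X →L[ℂ] X) : Prop :=
  ∀ f g, G f g ↔ Tendsto (fun h : ℝ => (h : ℂ)⁻¹ • (T h f - f)) (𝓝[>] 0) (𝓝 g)

/-- `G` is the graph of the generator of a uniformly bounded `C_0`-semigroup on `X`. -/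
def GeneratesUniformlyBounded (G : X → X → Prop) : Prop :=
  ∃ T : ℝ → X →L[ℂ] X, IsC0Semigroup T ∧ IsGeneratorGraph G T ∧ ∃ C : ℝ, ∀ t, 0 ≤ t → ‖T t‖ ≤ C

/-- A bounded semigroup acts on an eigenvector of the generator by an exponential. -/
theorem apply_eigenvector {T : ℝ → X →L[ℂ] X} (hT : IsC0Semigroup T) {C : ℝ}
    (hC : ∀ t, 0 ≤ t → ‖T t‖ ≤ C) {f : X} {l : ℂ}
    (hf : Tendsto (fun h : ℝ => (h : ℂ)⁻¹ • (T h f - f)) (𝓝[>] 0) (𝓝 (l • f))) (t : ℝ)
    (ht : 0 ≤ t) : T t f = Complex.exp (l * t) • f := by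
  have hcont0 : Tendsto (fun h => T h f) (𝓝[≥] 0) (𝓝 f) := by
    have h1 := hT.cont f
    have h2 : T 0 f = f := by simp [hT.zero]
    have : ContinuousWithinAt (fun h => T h f) (Ioi 0) 0 := by
      rw [ContinuousWithinAt, h2]; exact h1
    have h3 := continuousWithinAt_Ioi_iff_Ici.1 this
    rw [ContinuousWithinAt, h2] at h3
    exact h3
  have hcont : ContinuousOn (fun s => T s f) (Ici 0) := by
    intro s hs
    have hs : 0 ≤ s := hs
    rw [Metric.continuousWithinAt_iff]
    intro ε hε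
    have hC0 : 0 ≤ C := (norm_nonneg _).trans (hC 0 le_rfl)
    rw [Metric.tendsto_nhdsWithin_nhds] at hcont0
    obtain ⟨δ, hδ, hδ'⟩ := hcont0 (ε / (C + 1)) (by positivity)
    refine ⟨δ, hδ, ?_⟩
    have key : ∀ a b : ℝ, 0 ≤ a → a ≤ b → |b - a| < δ → ‖T b f - T a f‖ < ε := by
      intro a b ha hab hd
      have e : T b f - T a f = T a (T (b - a) f - f) := by
        have : T b = (T a).comp (T (b - a)) := by
          rw [← hT.add a (b - a) ha (by linarith)]
          congr 1; ring
        rw [this]; simp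
      rw [e]
      have h1 := hδ' (x := b - a) (by simp; linarith) (by simpa [Real.dist_eq] using hd)
      rw [dist_eq_norm] at h1
      calc ‖T a (T (b - a) f - f)‖ ≤ ‖T a‖ * ‖T (b - a) f - f‖ := (T a).le_opNorm _
        _ ≤ C * ‖T (b - a) f - f‖ := by gcongr; exact hC a ha
        _ ≤ C * (ε / (C + 1)) := by gcongr
        _ < (C + 1) * (ε / (C + 1)) := by
          apply mul_lt_mul_of_pos_right (by linarith) (by positivity)
        _ = ε := by field_simp
    intro r hr hrs
    have hr : 0 ≤ r := hr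
    rw [Real.dist_eq] at hrs
    rw [dist_eq_norm]
    rcases le_total r s with h | h
    · rw [← norm_neg, neg_sub]
      exact key r s hr h (by rw [abs_sub_comm]; exact hrs)
    · exact key s r hs h hrs
  have hderiv : ∀ s : ℝ, 0 ≤ s → HasDerivWithinAt (fun s => T s f) (l • T s f) (Ici s) s := by
    intro s hs
    rw [← hasDerivWithinAt_Ioi_iff_Ici, hasDerivWithinAt_iff_tendsto_slope']
    · have h1 : Tendsto (fun h : ℝ => T s ((h : ℂ)⁻¹ • (T h f - f))) (𝓝[>] 0)
          (𝓝 (T s (l • f))) := ((T s).continuous.tendsto _).comp hf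
      have h2 : Tendsto (fun r : ℝ => r - s) (𝓝[>] s) (𝓝[>] 0) := by
        apply tendsto_nhdsWithin_of_tendsto_nhds_of_eventually_within
        · apply tendsto_nhdsWithin_of_tendsto_nhds
          have : Tendsto (fun r : ℝ => r - s) (𝓝 s) (𝓝 (s - s)) :=
            (continuous_id.sub continuous_const).tendsto s
          simpa using this
        · filter_upwards [self_mem_nhdsWithin] with r hr
          have : s < r := hr
          simp only [mem_Ioi]; linarith
      have h3 := h1.comp h2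
      rw [map_smul] at h3
      refine h3.congr' ?_
      filter_upwards [self_mem_nhdsWithin] with r hr
      have hr : s < r := hr
      have e : T r f = T s (T (r - s) f) := by
        have : T r = (T s).comp (T (r - s)) := by
          rw [← hT.add s (r - s) hs (by linarith)]
          congr 1; ring
        rw [this]; simp
      simp only [Function.comp, slope, vsub_eq_sub]
      rw [e, map_smul, map_sub]
      rw [← Complex.ofReal_inv, Complex.coe_smul]
    · simp
  have hg : ∀ s ∈ Icc 0 t, Complex.exp (-l * s) • T s f = Complex.exp (-l * (0:ℝ)) • T 0 f := by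
    apply constant_of_has_deriv_right_zero
    · apply ContinuousOn.smul
      · fun_prop
      · exact hcont.mono Icc_subset_Ici_self
    · intro s hs
      have h1 : HasDerivAt (fun s : ℝ => Complex.exp (-l * s))
          (Complex.exp (-l * s) * (-l)) s := by
        have : HasDerivAt (fun s : ℝ => -l * (s : ℂ)) (-l * 1) s :=
          (Complex.ofRealCLM.hasDerivAt (x := s)).const_mul (-l)
        simpa using this.cexp
      have h2 := h1.hasDerivWithinAt.smul (hderiv s hs.1) (s := Ici s)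
      have e : (0 : X) = Complex.exp (-l * s) • l • (T s) f +
          (Complex.exp (-l * s) * -l) • (T s) f := by
        rw [smul_smul, ← add_smul]
        simp
      rw [e]
      exact h2
  have h := hg t ⟨ht, le_rfl⟩
  simp only [Complex.ofReal_zero, mul_zero, Complex.exp_zero, one_smul, hT.zero,
    ContinuousLinearMap.id_apply] at h
  calc T t f = Complex.exp (l * t) • Complex.exp (-l * t) • T t f := by
        rw [smul_smul, ← Complex.exp_add]; simp
    _ = Complex.exp (l * t) • f := by rw [h]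

end Semigroups

/-! ### The example -/

/-- the state space: countably many pairs of states -/
abbrev St := ℕ × Bool

/-- the weights of `ν` -/
noncomputable def nw (x : St) : ℝ := if x.2 then (1 / 4) ^ x.1 else (1 / 2) ^ x.1

/-- the weight `ω` -/
noncomputable def om (x : St) : ℝ := if x.2 then (1 / 4) ^ x.1 else 1

/-- the kernel -/
noncomputable def ker (x y : St) : ℝ :=
  if x.1 = y.1 then (if x.2 then (if y.2 then 0 else 2 ^ x.1)
    else (if y.2 then (1 / 2) ^ x.1 else 0)) else 0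

/-- the partner of a state -/
def pr (x : St) : St := (x.1, !x.2)

/-- the measure `ν` -/
noncomputable def nu : Measure St := Measure.sum fun x : St => ENNReal.ofReal (nw x) • Measure.dirac x

theorem nw_pos (x : St) : 0 < nw x := by unfold nw; split_ifs <;> positivity

theorem om_pos (x : St) : 0 < om x := by unfold om; split_ifs <;> positivity

theorem ker_nonneg (x y : St) : 0 ≤ ker x y := by unfold ker; split_ifs <;> positivity

theorem ker_eq_zero {x y : St} (h : y ≠ pr x) : ker x y = 0 := by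
  rcases x with ⟨n, b⟩
  rcases y with ⟨m, c⟩
  cases b <;> cases c <;> simp_all [ker, pr] <;> intro h2 <;> exact absurd h2.symm h

theorem ker_eq_zero' {x y : St} (h : y ≠ pr x) : ker y x = 0 := by
  apply ker_eq_zero
  rintro rfl
  apply h
  simp [pr]

theorem lintegral_nu (f : St → ℝ≥0∞) : ∫⁻ x, f x ∂nu = ∑' x, ENNReal.ofReal (nw x) * f x := by
  rw [nu, lintegral_sum_measure]
  congr 1
  ext x
  rw [lintegral_smul_measure, lintegral_dirac, smul_eq_mul]

theorem sigma_eq (x : St) : sigma nu ker x = ENNReal.ofReal (ker (pr x) x * nw (pr x)) := by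
  rw [sigma, lintegral_nu, tsum_eq_single (pr x)]
  · rw [← ENNReal.ofReal_mul (nw_pos _).le, mul_comm]
  · intro y hy
    rw [ker_eq_zero' hy]; simp

theorem sigmaHat_eq (x : St) : sigmaHat nu ker x = ENNReal.ofReal (ker x (pr x) * nw (pr x)) := by
  rw [sigmaHat, lintegral_nu, tsum_eq_single (pr x)]
  · rw [← ENNReal.ofReal_mul (nw_pos _).le, mul_comm]
  · intro y hy
    rw [ker_eq_zero hy]; simp

instance : IsFiniteMeasure nu := by
  refine ⟨?_⟩
  have h : nu univ = ∑' x, ENNReal.ofReal (nw x) := by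
    rw [← lintegral_one, lintegral_nu]; simp
  rw [h, ← ENNReal.ofReal_tsum_of_nonneg (fun x => (nw_pos x).le)]
  · exact ENNReal.ofReal_lt_top
  · have h1 : Summable fun n : ℕ => ((1:ℝ) / 4) ^ n :=
      summable_geometric_of_lt_one (by norm_num) (by norm_num)
    have h2 : Summable fun n : ℕ => ((1:ℝ) / 2) ^ n :=
      summable_geometric_of_lt_one (by norm_num) (by norm_num)
    rw [summable_prod_of_nonneg (fun x => (nw_pos x).le)]
    refine ⟨fun n => (hasSum_fintype _).summable, ?_⟩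
    simp only [nw, tsum_fintype, Fintype.sum_bool]
    simpa using h1.add h2

theorem mu_eq : mu nu om = Measure.sum fun x : St =>
    ENNReal.ofReal (om x * nw x) • Measure.dirac x := by
  rw [mu, nu, withDensity_sum]
  congr 1
  ext1 x
  rw [withDensity_smul_measure, dirac_withDensity, smul_smul, mul_comm,
    ← ENNReal.ofReal_mul (om_pos x).le]

theorem lintegral_mu (f : St → ℝ≥0∞) :
    ∫⁻ x, f x ∂(mu nu om) = ∑' x, ENNReal.ofReal (om x * nw x) * f x := by
  rw [mu_eq, lintegral_sum_measure]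
  congr 1
  ext x
  rw [lintegral_smul_measure, lintegral_dirac, smul_eq_mul]

theorem ae_mu {P : St → Prop} : (∀ᵐ x ∂(mu nu om), P x) ↔ ∀ x, P x := by
  rw [mu_eq, Measure.ae_sum_iff]
  refine forall_congr' fun x => ?_
  rw [Measure.ae_ennreal_smul_measure_eq, ae_dirac_iff]
  · exact MeasurableSet.of_discrete
  · simp [mul_pos (om_pos x) (nw_pos x)]

theorem ae_nu {P : St → Prop} : (∀ᵐ x ∂nu, P x) ↔ ∀ x, P x := by
  rw [nu, Measure.ae_sum_iff]
  refine forall_congr' fun x => ?_
  rw [Measure.ae_ennreal_smul_measure_eq, ae_dirac_iff]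
  · exact MeasurableSet.of_discrete
  · simp [nw_pos x]

theorem om_le_one (x : St) : om x ≤ 1 := by
  unfold om; split_ifs
  · exact pow_le_one₀ (by norm_num) (by norm_num)
  · exact le_rfl

instance : IsFiniteMeasure (mu nu om) := by
  refine ⟨?_⟩
  rw [mu, withDensity_apply _ MeasurableSet.univ, Measure.restrict_univ]
  calc ∫⁻ x, ENNReal.ofReal (om x) ∂nu ≤ ∫⁻ _, 1 ∂nu := by
        apply lintegral_mono
        intro x
        simpa using ENNReal.ofReal_le_ofReal (om_le_one x)
    _ < ∞ := by simp [measure_lt_top]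

/-- a function supported on one pair -/
noncomputable def fv (n : ℕ) (u v : ℂ) (x : St) : ℂ := if x.1 = n then (if x.2 then v else u) else 0

theorem fv_memLp (n : ℕ) (u v : ℂ) : MemLp (fv n u v) 1 (mu nu om) := by
  refine MemLp.of_bound (measurable_of_countable _).aestronglyMeasurable (‖u‖ + ‖v‖) ?_
  refine Eventually.of_forall fun x => ?_
  unfold fv
  split_ifs
  · linarith [norm_nonneg u]
  · linarith [norm_nonneg v]
  · rw [norm_zero]; positivity

/-- the same as an element of `L^1(μ)` -/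
noncomputable def FV (n : ℕ) (u v : ℂ) : Lp ℂ 1 (mu nu om) := (fv_memLp n u v).toLp

theorem FV_coe (n : ℕ) (u v : ℂ) (x : St) : FV n u v x = fv n u v x := by
  have := (fv_memLp n u v).coeFn_toLp
  exact ae_mu.1 this x

theorem FV_norm (n : ℕ) (u v : ℂ) : ‖FV n u v‖ = (1 / 2) ^ n * ‖u‖ + (1 / 16) ^ n * ‖v‖ := by
  rw [L1.norm_def, lintegral_mu, tsum_eq_sum (s := {(n, false), (n, true)})]
  · rw [Finset.sum_pair (by simp)]
    simp only [FV_coe, fv, om, nw, if_true, Bool.false_eq_true, if_false, one_mul]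
    rw [← ofReal_norm, ← ofReal_norm, ← ENNReal.ofReal_mul (by positivity),
      ← ENNReal.ofReal_mul (by positivity), ← ENNReal.ofReal_add (by positivity) (by positivity),
      ENNReal.toReal_ofReal (by positivity), ← mul_pow]
    norm_num
  · intro x hx
    rw [FV_coe]
    have : fv n u v x = 0 := by
      unfold fv
      rw [if_neg]
      intro h
      apply hx
      rcases x with ⟨m, b⟩
      simp only at h
      subst h
      cases b <;> simp
    simp [this]

theorem integral_nu {g : St → ℂ} {z : St} (h : ∀ y, y ≠ z → g y = 0) :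
    ∫ y, g y ∂nu = nw z * g z := by
  have e : g = indicator {z} fun _ => g z := by
    ext y
    by_cases hy : y = z
    · subst hy; simp
    · rw [h y hy, indicator_of_notMem (by simpa using hy)]
  rw [e, integral_indicator_const _ (MeasurableSet.singleton z)]
  have hz : nu {z} = ENNReal.ofReal (nw z) := by
    rw [nu, Measure.sum_apply _ (MeasurableSet.singleton z), tsum_eq_single z]
    · simp
    · intro y hy
      simp [hy]
  rw [Measure.real, hz, ENNReal.toReal_ofReal (nw_pos z).le]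
  simp

theorem graph_FV (n : ℕ) (u v : ℂ) : GraphU nu ker om (FV n u v)
    (FV n (-(1 / 2) ^ n * u + (1 / 8) ^ n * v) (u - (1 / 4) ^ n * v)) := by
  have hs : ∀ x : St, (sigma nu ker x).toReal = if x.2 then (1 / 4) ^ x.1 else (1 / 2) ^ x.1 := by
    intro x
    rw [sigma_eq, ENNReal.toReal_ofReal (mul_nonneg (ker_nonneg _ _) (nw_pos _).le)]
    rcases x with ⟨m, b⟩
    cases b
    · simp only [ker, pr, nw, if_true, Bool.not_false, Bool.false_eq_true, if_false]
      rw [← mul_pow]; norm_num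
    · simp only [ker, pr, nw, if_true, Bool.not_true, Bool.false_eq_true, if_false]
      rw [← mul_pow]; norm_num
  refine ⟨?_, ?_⟩
  · have : (fun x => ((sigma nu ker x).toReal : ℂ) * FV n u v x) =
        fv n ((1 / 2) ^ n * u) ((1 / 4) ^ n * v) := by
      ext x
      rw [hs, FV_coe]
      unfold fv
      rcases x with ⟨m, b⟩
      by_cases hm : m = n
      · subst hm
        cases b <;> simp
      · simp [hm]
    rw [this]
    exact memLp_one_iff_integrable.1 (fv_memLp _ _ _)
  · rw [ae_mu]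
    intro x
    rw [integral_nu (z := pr x)]
    · rw [hs]
      simp only [FV_coe]
      unfold fv
      rcases x with ⟨m, b⟩
      by_cases hm : m = n
      · subst hm
        cases b
        · simp only [ker, pr, nw, if_true, Bool.not_false, Bool.false_eq_true, if_false]
          have e : ((1:ℂ) / 8) ^ m = (1 / 4) ^ m * (1 / 2) ^ m := by
            rw [← mul_pow]; norm_num
          rw [e]
          push_cast
          ring
        · simp only [ker, pr, nw, if_true, Bool.not_true, Bool.false_eq_true, if_false]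
          have e : ((1:ℂ) / 2) ^ m * 2 ^ m = 1 := by
            rw [← mul_pow]; norm_num
          push_cast
          linear_combination (-u) * e
      · simp [hm, pr]
    · intro y hy
      rw [ker_eq_zero hy]; simp

theorem admissible : Admissible nu ker om := by
  refine ⟨inferInstance, measurable_of_countable _, ker_nonneg, measurable_of_countable _, om_pos,
    ?_, ?_, ?_, ?_⟩
  · rintro ⟨n, b⟩ ⟨m, c⟩
    by_cases h : n = m
    · subst h
      have e : (4:ℝ) ^ n = 2 ^ n * 2 ^ n := by rw [← mul_pow]; norm_num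
      cases b <;> cases c <;> simp [ker, om]
      · rw [e]; field_simp
      · rw [e]; field_simp
    · simp [ker, h, Ne.symm h]
  · rw [ae_nu]
    intro x
    rw [sigma_eq]
    refine ⟨?_, ENNReal.ofReal_lt_top⟩
    rw [ENNReal.ofReal_pos]
    apply mul_pos _ (nw_pos _)
    rcases x with ⟨n, b⟩
    cases b <;> simp [ker, pr]
  · refine ⟨1, fun y => ?_⟩
    rw [sigmaHat_eq, ENNReal.coe_one, one_mul]
    refine le_trans ?_ le_self_add
    rw [← ENNReal.ofReal_one]
    apply ENNReal.ofReal_le_ofReal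
    rcases y with ⟨n, b⟩
    cases b
    · simp only [ker, pr, nw, if_true, Bool.not_false, Bool.false_eq_true, if_false]
      rw [← mul_pow]
      exact pow_le_one₀ (by norm_num) (by norm_num)
    · simp only [ker, pr, nw, if_true, Bool.not_true, Bool.false_eq_true, if_false]
      rw [← mul_pow]
      exact pow_le_one₀ (by norm_num) (by norm_num)
  · refine ⟨(measurable_of_countable _).aestronglyMeasurable, ?_⟩
    rw [hasFiniteIntegral_iff_ofReal (Eventually.of_forall fun x => (inv_pos.2 (om_pos x)).le),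
      lintegral_mu]
    have : ∀ x, ENNReal.ofReal (om x * nw x) * ENNReal.ofReal (om x)⁻¹ =
        ENNReal.ofReal (nw x) * 1 := by
      intro x
      rw [← ENNReal.ofReal_mul (mul_pos (om_pos x) (nw_pos x)).le, mul_one]
      congr 1
      have := (om_pos x).ne'
      field_simp
    simp_rw [this]
    rw [← lintegral_nu, lintegral_one]
    exact measure_lt_top _ _

/-- **Failure of uniform boundedness.** There are data `(Ω, ν, p, ω)` satisfying detailed balance,
`0 < σ < ∞`, condition (A) and `ω⁻¹ ∈ L^1(μ)` such that `U₁ = M₁ + P` does not generate a uniformly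
bounded `C_0`-semigroup on `L^1(μ)`. -/
theorem result : ∃ (Ω : Type) (_ : MeasurableSpace Ω) (ν : Measure Ω) (p : Ω → Ω → ℝ) (ω : Ω → ℝ),
    Admissible ν p ω ∧ ¬ GeneratesUniformlyBounded (GraphU ν p ω) := by
  refine ⟨St, inferInstance, nu, ker, om, admissible, ?_⟩
  rintro ⟨T, hT, hG, C, hC⟩
  have hC0 : 0 ≤ C := (norm_nonneg _).trans (hC 0 le_rfl)
  have key : ∀ n : ℕ, (2:ℝ) ^ n ≤ 2 * C := by
    intro n
    -- the two eigenvectors
    have g0 := graph_FV n 1 (4 ^ n)
    have g1 := graph_FV n 1 (-2 ^ n)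
    have s0 : FV n (-(1 / 2) ^ n * 1 + (1 / 8) ^ n * 4 ^ n) (1 - (1 / 4) ^ n * 4 ^ n) =
        (0 : ℂ) • FV n 1 (4 ^ n) := by
      have e1 : ((1:ℂ) / 8) ^ n * 4 ^ n = (1 / 2) ^ n := by rw [← mul_pow]; norm_num
      have e2 : ((1:ℂ) / 4) ^ n * 4 ^ n = 1 := by rw [← mul_pow]; norm_num
      rw [e1, e2, zero_smul]
      apply Lp.ext
      rw [EventuallyEq, ae_mu]
      intro x
      rw [FV_coe, ae_mu.1 (Lp.coeFn_zero ℂ 1 (mu nu om)) x]
      simp [fv]
    have s1 : FV n (-(1 / 2) ^ n * 1 + (1 / 8) ^ n * (-2 ^ n)) (1 - (1 / 4) ^ n * (-2 ^ n)) =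
        (-((1 / 2) ^ n + (1 / 4) ^ n : ℂ)) • FV n 1 (-2 ^ n) := by
      have e1 : ((1:ℂ) / 8) ^ n * 2 ^ n = (1 / 4) ^ n := by rw [← mul_pow]; norm_num
      have e2 : ((1:ℂ) / 4) ^ n * 2 ^ n = (1 / 2) ^ n := by rw [← mul_pow]; norm_num
      have e3 : ((1:ℂ) / 2) ^ n * 2 ^ n = 1 := by rw [← mul_pow]; norm_num
      apply Lp.ext
      rw [EventuallyEq, ae_mu]
      intro x
      rw [FV_coe, ae_mu.1 (Lp.coeFn_smul (-((1 / 2) ^ n + (1 / 4) ^ n : ℂ)) (FV n 1 (-2 ^ n))) x]
      simp only [Pi.smul_apply, FV_coe, smul_eq_mul]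
      unfold fv
      split_ifs
      · linear_combination e2 - e3 - e2
      · linear_combination -e1
      · simp
    rw [s0] at g0
    rw [s1] at g1
    have t0 := (hG _ _).1 g0
    have t1 := (hG _ _).1 g1
    have a0 := apply_eigenvector hT hC t0
    have a1 := apply_eigenvector hT hC t1
    have hsub : FV n 1 (4 ^ n) - FV n 1 (-2 ^ n) = FV n 0 (4 ^ n + 2 ^ n) := by
      apply Lp.ext
      rw [EventuallyEq, ae_mu]
      intro x
      rw [FV_coe, ae_mu.1 (Lp.coeFn_sub (FV n 1 (4 ^ n)) (FV n 1 (-2 ^ n))) x]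
      simp only [Pi.sub_apply, FV_coe]
      unfold fv
      split_ifs <;> ring
    have hbound : ∀ t : ℝ, 0 ≤ t → (1 / 2 : ℝ) ^ n ≤
        C * ((1 / 16) ^ n * (4 ^ n + 2 ^ n)) +
          Real.exp (-((1 / 2) ^ n + (1 / 4) ^ n) * t) * ‖FV n 1 (-2 ^ n)‖ := by
      intro t ht
      have h1 : ‖T t (FV n 0 (4 ^ n + 2 ^ n))‖ ≤ C * ‖FV n 0 (4 ^ n + 2 ^ n)‖ :=
        ((T t).le_opNorm _).trans (mul_le_mul_of_nonneg_right (hC t ht) (norm_nonneg _))
      rw [← hsub, map_sub, a0 t ht, a1 t ht, hsub] at h1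
      simp only [zero_mul, Complex.exp_zero, one_smul] at h1
      have h2 := norm_sub_norm_le (FV n 1 (4 ^ n))
        (Complex.exp (-((1 / 2) ^ n + (1 / 4) ^ n) * t) • FV n 1 (-2 ^ n))
      rw [norm_smul, Complex.norm_exp] at h2
      have h3 : (-((1 / 2) ^ n + (1 / 4) ^ n : ℂ) * t).re = -((1 / 2) ^ n + (1 / 4) ^ n) * t := by
        have : (-((1 / 2) ^ n + (1 / 4) ^ n : ℂ) * t) =
          ((-((1 / 2) ^ n + (1 / 4) ^ n) * t : ℝ) : ℂ) := by push_cast; ring
        rw [this, Complex.ofReal_re]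
      rw [h3] at h2
      have h4 : ‖FV n 0 (4 ^ n + 2 ^ n)‖ = (1 / 16) ^ n * (4 ^ n + 2 ^ n) := by
        rw [FV_norm]
        have : ((4:ℂ) ^ n + 2 ^ n) = ((4 ^ n + 2 ^ n : ℝ) : ℂ) := by push_cast; ring
        rw [this, Complex.norm_real, Real.norm_of_nonneg (by positivity)]
        simp
      have h5 : (1 / 2 : ℝ) ^ n ≤ ‖FV n 1 (4 ^ n)‖ := by
        rw [FV_norm]
        simp
      rw [h4] at h1
      linarith
    have hlim : Tendsto (fun t : ℝ => C * ((1 / 16) ^ n * (4 ^ n + 2 ^ n)) +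
          Real.exp (-((1 / 2) ^ n + (1 / 4) ^ n) * t) * ‖FV n 1 (-2 ^ n)‖) atTop
        (𝓝 (C * ((1 / 16) ^ n * (4 ^ n + 2 ^ n)) + 0 * ‖FV n 1 (-2 ^ n)‖)) := by
      apply Tendsto.const_add
      apply Tendsto.mul_const
      apply Real.tendsto_exp_atBot.comp
      apply Tendsto.const_mul_atTop_of_neg _ tendsto_id
      have : (0:ℝ) < (1 / 2) ^ n + (1 / 4) ^ n := by positivity
      linarith
    rw [zero_mul, add_zero] at hlim
    have hfin : (1 / 2 : ℝ) ^ n ≤ C * ((1 / 16) ^ n * (4 ^ n + 2 ^ n)) :=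
      ge_of_tendsto hlim ((eventually_ge_atTop 0).mono hbound)
    have e1 : (2:ℝ) ^ n ≤ 4 ^ n := pow_le_pow_left₀ (by norm_num) (by norm_num) n
    have e2 : (1 / 2 : ℝ) ^ n ≤ 2 * C * ((1 / 16) ^ n * 4 ^ n) := by
      refine hfin.trans ?_
      have : (1 / 16 : ℝ) ^ n * (4 ^ n + 2 ^ n) ≤ (1 / 16) ^ n * (2 * 4 ^ n) := by
        apply mul_le_mul_of_nonneg_left (by linarith) (by positivity)
      nlinarith [mul_le_mul_of_nonneg_left this hC0]
    have e3 : (1 / 16 : ℝ) ^ n * 4 ^ n = (1 / 4) ^ n := by rw [← mul_pow]; norm_num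
    rw [e3] at e2
    have e4 : (2:ℝ) ^ n = (1 / 2) ^ n * 4 ^ n := by rw [← mul_pow]; norm_num
    have e5 : (1 / 4 : ℝ) ^ n * 4 ^ n = 1 := by rw [← mul_pow]; norm_num
    calc (2:ℝ) ^ n = (1 / 2) ^ n * 4 ^ n := e4
      _ ≤ 2 * C * (1 / 4) ^ n * 4 ^ n := mul_le_mul_of_nonneg_right e2 (by positivity)
      _ = 2 * C := by rw [mul_assoc, e5, mul_one]
  obtain ⟨n, hn⟩ := pow_unbounded_of_one_lt (2 * C) (show (1:ℝ) < 2 by norm_num)
  exact absurd (key n) (not_le.2 hn)

end Pool.Agent.Results.MP_ae1cd8_an.NotUniformlyBounded
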